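import Pool.Agent.H910.Lp.Pln

/-!
# Brody hyperbolicity, log general type and pointed maps for quasi-projective varieties

`U = X ∖ D`, where `X` is a complex projective variety with the generic point `x` (homogeneous
coordinates in the function field `K`) and `D` is the proper closed subset of the common zeros in `X` of
finitely many forms `Q i` (`Pair x Q`). The conditions of the problem for `U` are: (1) `BrodyHypOff x Q`
(there is no nonconstant entire curve in `U`); (2) `AllLog x Q` (all closed subvarieties of positive
dimension of `U` are of log general type); (3) `PointedFiniteOff x Q 1` (for all smooth curves `C`, points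
`c` of `C` and `a` of `U`, the morphisms `C → U` with `c ↦ a` are finite in number). Moreover,
`AlgHypOff x Q` is algebraic hyperbolicity, `deg f ≤ A (2 g - 2 + N)` for the nonconstant maps `f` from
curves of genus `g` to `X`, with image not contained in `D` and `N` points over `D`; and `LowOff x Q` is
the set of the closed curves in `U` with `2 g - 2 + N ≤ 0` (`g` is the geometric genus and `N` the
number of the points over `D` of the normalization of the closure).

**Theorem.** (I) For all `U`, condition (3) implies that there are no closed curves in `U` with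
`2 g - 2 + N ≤ 0`. If `U` is affine or projective (`D` is given by one form, which may be a constant),
then algebraic hyperbolicity implies condition (3).

(II) Suppose that all closed subvarieties `Z` of dimension at least two of `U` are of log general type
and belong to the class `Tower` (`LogClass x Q`). Then the closed curves in `U` with `2 g - 2 + N ≤ 0`
are finite in number, they are the Zariski closures of the nonconstant entire curves in `U`, and all
other closed subvarieties of positive dimension of `U` are of log general type; and conditions (1), (2),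
algebraic hyperbolicity, and the condition that there are no such curves are equivalent. If `U` is
affine or projective then they are equivalent to (3).

(III) `U` belongs to this class if each `Z` has a generically finite ramified map to a space of binary
forms, or is of log general type and has finitely many maps to members of the class `Tower` and ramified
maps, such that the map to the product has relative dimension at most one over its image (`Step`). A
surface `U` belongs to it if it satisfies this condition itself; for instance, if it is of log general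
type and has a nonconstant ramified map. (A rational map `y` from `X` to the space `P^(n + 1)` of the
binary forms of degree `n + 1` is *ramified* (`Ram ℂ x Q y`) if there are distinct numbers `a i` and
weights `μ i ≤ M`, `c i` and `cD` with `(n + 1) (∑ c i + 2 n cD) + 2 M < ∑ μ i`, such that at all places
of points of `X` which do not meet `D`, outside of a proper closed subset, the orders of contact `s i` of
the image with the hyperplanes of the forms which vanish at `(1 : a i)` and `t` with the discriminant
hypersurface satisfy one of the following conditions: `t = 0` and each `s i` is zero or at least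
`M / (M - μ i)`; or `∑ c i s i + cD t ≥ M`. For `n = 0` these are the maps to `P^1` which are orbifold
maps for a hyperbolic orbifold structure, for instance the maps to hyperbolic curves of genus zero.)

(IV) Let `U` be the open subset of the affine plane of the points `(u, v)` with
`q = u v (u - v) ≠ 1, 2`, and `q ≠ 0` or `u + v ≠ 1, 2` (the plane without two curves and without six
points on the three lines `q = 0`). `U` belongs to the class of (II), it satisfies conditions (1) and
(2), and it is algebraically hyperbolic, but it does not satisfy condition (3). So in (II) one cannot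
leave out that `U` is affine or projective, and condition (2) does not imply condition (3). Moreover, for
each `w` there are holomorphic maps `ζ ↦ (ζ a n, ζ b n)` from the unit disc to `U` and points `z n` of
the disc with `z n → 0` whose images tend to the point `(w, 0)` of the line `v = 0`; so the Kobayashi
pseudodistance of `U` vanishes on this line. (That (1) does not imply (3) is in the library, with this
surface: `R_pool_sql_team_51e01f96`, `MP_dc0411_ag.BrodyNotFinite`.)

`LogClass`, `CurvesOff`, `BrodyHypOff`, `AllLog`, `AlgHypOff`, `LowOff`, `SubOff` :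
`Pool/Agent/H910/Lp/Ldf.lean`; `PointedFiniteOff`, `PointedOff` : `Pool/Agent/H910/Lp/Pdf.lean`; `Step` :
`Pool/Agent/H910/Lp/Mdf.lean`; `surf` : `Pool/Agent/H910/Lp/Cdf.lean`; `Pair` :
`Pool/Agent/H910/Cf/Stm.lean`; `Entire` : `Pool/Agent/H910/Cf/Pic.lean`; `Ram` :
`Pool/Agent/H910/Cf/Defs.lean`; `Tower` : `Pool/Agent/H910/Cf/Cls.lean`; `PairMap` :
`Pool/Agent/H916/LPair.lean`; `Meets` : `Pool/Agent/H916/LRat.lean`; `LogGeneralType` :
`Pool/Graph/R_seed8/W602/GT/Defs.lean`.
-/

set_option autoImplicit false
set_option linter.overlappingInstances false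

open FF Filter Topology Pool.Agent.H910.Cf Pool.Agent.H910.Lp
open Pool.Agent.W602.GT (coords IsForm val)

namespace Pool.Agent.Results.MP_dc0411_ag.AffineEquivalence

/-- **Brody hyperbolicity, log general type and pointed maps.** See the explanation at the beginning
of the file. -/
theorem result :
    (∀ (M : ℕ) (K : Type) [Field K] [Algebra ℂ K] (x : Fin (M + 1) → K) (ι : Type)
      (Q : ι → MvPolynomial (Fin (M + 1)) ℂ), Pair x Q →
      (PointedFiniteOff x Q 1 → LowOff x Q = ∅) ∧
      (LogClass x Q → CurvesOff x Q ∧
        List.TFAE [BrodyHypOff x Q, AllLog x Q, AlgHypOff x Q, LowOff x Q = ∅]) ∧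
      ((∀ (E : Type) [Field E] [Algebra ℂ E] (z : Fin (M + 1) → E) (t : ℕ), SubOff x Q z →
        Algebra.trdeg ℂ E = t → 2 ≤ t → Step z Q) → LogClass x Q) ∧
      (Algebra.trdeg ℂ K = (2 : ℕ) → Step x Q → LogClass x Q)) ∧
    (∀ (M : ℕ) (K : Type) [Field K] [Algebra ℂ K] (x : Fin (M + 1) → K)
      (Q : MvPolynomial (Fin (M + 1)) ℂ), Pair x (fun _ : Unit => Q) →
      (AlgHypOff x (fun _ : Unit => Q) → PointedFiniteOff x (fun _ : Unit => Q) 1) ∧
      (LogClass x (fun _ : Unit => Q) →
        List.TFAE [BrodyHypOff x fun _ : Unit => Q, AllLog x fun _ : Unit => Q,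
          PointedFiniteOff x (fun _ : Unit => Q) 1, AlgHypOff x fun _ : Unit => Q,
          LowOff x (fun _ : Unit => Q) = ∅])) ∧
    ((∀ p : Fin 3 → ℂ, (∃ i, MvPolynomial.eval p (surf i) ≠ 0) ↔ p 0 ≠ 0 ∧
        p 1 * p 2 * (p 1 - p 2) ≠ p 0 ^ 3 ∧ p 1 * p 2 * (p 1 - p 2) ≠ 2 * p 0 ^ 3 ∧
          (p 1 * p 2 * (p 1 - p 2) ≠ 0 ∨ (p 1 + p 2 ≠ p 0 ∧ p 1 + p 2 ≠ 2 * p 0))) ∧
      (∃ (K : Type) (_ : Field K) (_ : Algebra ℂ K) (x : Fin 3 → K), Pair x surf ∧
        (∀ H : MvPolynomial (Fin 3) ℂ, IsForm H → val x H = 0 → H = 0) ∧
        LogClass x surf ∧ BrodyHypOff x surf ∧ AllLog x surf ∧ AlgHypOff x surf ∧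
        ¬ PointedFiniteOff x surf 1) ∧
      ∀ w : ℂ, ∃ a b z : ℕ → ℂ,
        (∀ (n : ℕ) (ζ : ℂ), ‖ζ‖ < 1 →
          ∃ i, MvPolynomial.eval (![1, ζ * a n, ζ * b n] : Fin 3 → ℂ) (surf i) ≠ 0) ∧
        Tendsto z atTop (𝓝 0) ∧ Tendsto (fun n => (z n * a n, z n * b n)) atTop (𝓝 (w, 0))) := by
  refine ⟨fun M K _ _ x ι Q hp => ⟨fun h => low_empty_of_pointed hp.2.2.2.1 h, fun h => ?_,
    fun h => class_of_step hp h, fun htr h => class_of_surface hp htr h⟩,
    fun M K _ _ x Q hp => ⟨fun h => ?_, fun h => ?_⟩, surf_mem, ?_, surf_discs⟩
  · have hfin := hp.2.2.1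
    have h1 := h.curves hp.1 hp.2.1 hp.2.2.2.1
    exact ⟨h1, h1.tfae hp.2.2.2.1⟩
  · obtain ⟨d, hd⟩ := hp.2.2.2.1 ()
    exact h.pointed hd
  · exact (h.curves hp.1 hp.2.1 hp.2.2.2.1).tfae' (hp.2.2.2.1 ())
  · obtain ⟨K, i1, i2, x, hgen, hx, hH⟩ := exists_plane
    refine ⟨K, i1, i2, x, ⟨hx, hgen, inferInstance, surf_form, 0, fun h0 => ?_⟩, hH,
      surf_all hgen hx hH⟩
    have h1 := hH (surf 0) (surf_form 0) h0
    have h4 := surf0_val (![1, 3, 1] : Fin 3 → ℂ)
    rw [h1, map_zero] at h4
    have e0 : (![1, 3, 1] : Fin 3 → ℂ) 0 = 1 := rfl
    have e1 : (![1, 3, 1] : Fin 3 → ℂ) 1 = 3 := rfl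
    have e2 : (![1, 3, 1] : Fin 3 → ℂ) 2 = 1 := rfl
    rw [e0, e1, e2] at h4
    norm_num at h4

end Pool.Agent.Results.MP_dc0411_ag.AffineEquivalence
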