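import Pool.Agent.H916.AffP6

/-!
# Brody hyperbolicity and pointed curves for affine families of curves

`U = Spec A → V = Spec A0` is a morphism of affine varieties over the complex numbers (finitely
generated algebras; they may be reducible, singular or nonreduced, and of any dimension) all of whose
closed fibres have dimension at most one (`FibresAreCurves`). We consider the following conditions for
`U`.

* `Brody`: condition (1) of the question, all holomorphic maps from the plane to `U` are constant.
* `CurvesLogGeneral`: condition (2) for the curves in `U`: they are of log general type.
* `FinitePointed`: condition (3): for all smooth affine curves `C = Spec B` (Dedekind domains `B`,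
  finitely generated over `ℂ`), points `c` of `C` and `x` of `U` only finitely many morphisms from `C`
  to `U` map `c` to `x`. (Morphisms from projective curves to `U` are constant.)
* `FinitePointedMaps A ⊤`: the same with arbitrary varieties `Y` (schemes over `ℂ`) instead of `C`.
* `BoundedModulo A ⊤`: `U` is bounded: for every smooth affine curve `C` and every regular function
  `a` on `U` the functions `a ∘ f`, for all morphisms `f` from `C` to `U`, lie in a finite-dimensional
  space.
* `LinearlyBounded`: for every regular function `a` on `U` there is `C` such that for all smooth
  projective curves (with the function field `E`) and all rational maps `φ` from them to `U` the degree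
  of `a ∘ φ` is at most `C max (2 g - 2 + N, 0)`, where `N` is the number of the points where `φ` is
  not defined.
* `NoGm`: all morphisms from the punctured line to `U` are constant.
* `Tower`: the inductive class of the iterated affine families of curves which satisfy `NoGm`.

**Theorem.** If `V` satisfies (1), then (1), `NoGm` and (2) for the curves in `U` are equivalent for
`U`. If `V` is bounded, then (3), (3) for all varieties `Y`, `NoGm`, (2) for the curves in `U` and
boundedness are equivalent for `U`. If `V` is linearly bounded, then linear boundedness of `U` is
equivalent to these. All `V` in the class `Tower` satisfy (1) and are linearly bounded.

Hence (1) and (3) are equivalent for `U`, and (2) implies both, whenever `V` satisfies (1) and is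
bounded. Since `U` is again bounded and satisfies (1), this applies to all iterated affine families of
curves `U = V_n → ... → V_1 → V_0 = point`, in any dimension: all `V_i` which satisfy `NoGm` are Brody
hyperbolic and bounded, and linearly bounded. For instance `U` may be an affine surface with a
nonconstant morphism to a smooth affine curve of log general type.

Proof. The relative height inequality: if `NoGm` holds, then the heights of the coordinates of a map
`φ` from a curve to `U` are bounded by a constant times `max (2 g - 2, 0) + N +` the heights of the
coordinates of the composition with `U → V`. By noetherian induction it is enough to prove this for
irreducible `U` outside of a proper closed subset. If the generic fibre is finite this is elementary.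
Otherwise the geometric generic fibre is an affine curve; if it was not of log general type, it would be
dominated by the punctured line, and the specialization of the finitely many coefficients of this
map would give a nonconstant morphism from the punctured line to `U`. So it is of log general type and
the relative inequality of `Pool/Agent/H916/LVoj.lean` (ultraproducts of function fields, Wronskians)
applies. Boundedness implies (3) by a theorem of the library (`Pool/Graph/R_seed8/Y193`: rigidity, as
there are no lines in `U`). If `ψ` is a nonconstant map from the punctured line to `U` then
`ψ (t ^ n)` are infinitely many maps with the same value at `t = 1`, and `ψ (exp z)` is an entire curve.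
Conversely an entire curve in `U` lies in a fibre of `U → V` if `V` satisfies (1), hence in a curve of
log general type (or a point), and it is constant by Picard's theorem; this is proved for affine curves
with Nevanlinna theory (`Pool/Agent/H916/AffP1.lean` to `AffP6.lean`): the pull-backs of the
logarithmic pluricanonical forms are entire functions with small proximity functions.
-/

set_option autoImplicit false

open Pool.Agent.Y193 (FinitePointedMaps BoundedModulo)

namespace Pool.Agent.Results.MP_dc0411_ag.AffineFamiliesOfCurves

open Pool.Agent.H916.Aff

theorem result {A0 A : Type} [CommRing A0] [CommRing A] [Algebra ℂ A0] [Algebra ℂ A]
    [Algebra A0 A] [IsScalarTower ℂ A0 A] [Algebra.FiniteType ℂ A0] [Algebra.FiniteType ℂ A]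
    (hfib : FibresAreCurves A0 A) :
    (Brody A0 → List.TFAE [Brody A, NoGm A, CurvesLogGeneral A]) ∧
    (BoundedModulo A0 ⊤ → List.TFAE [FinitePointedMaps A ⊤, FinitePointed A, NoGm A,
      CurvesLogGeneral A, BoundedModulo A ⊤]) ∧
    (LinearlyBounded A0 → List.TFAE [FinitePointedMaps A ⊤, FinitePointed A, NoGm A,
      CurvesLogGeneral A, BoundedModulo A ⊤, LinearlyBounded A]) ∧
    (Tower A0 → Brody A0 ∧ LinearlyBounded A0) :=
  ⟨tfae_brody hfib, tfae_bounded hfib, tfae_linear hfib, fun h => ⟨h.brody, h.linear⟩⟩

end Pool.Agent.Results.MP_dc0411_ag.AffineFamiliesOfCurves
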