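import Pool.Agent.H918.J.Pointed

/-!
# The conditions of Lang and Vojta for surfaces fibred over an elliptic curve

Let `X = {F = 0}` be an irreducible complex projective surface of general type (it may be singular),
with the generic point `y`, and let `α` be a holomorphic map from `X` to an elliptic curve `ℂ / Λ` which
is given by forms `A` (`WForms`: the composition of `α` with the embedding by `(1 : ℘ : ℘')`), such that
`X` has, for a finite set `B` of points of the elliptic curve, a semistable reduction which is
unramified outside of the fibres over `B` (`HasReduction`; by the theorems of Deligne and Mumford and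
of Arakelov all smooth projective surfaces of general type with a holomorphic map with connected
fibres to an elliptic curve satisfy this), and a form `H` which is not zero on `X` is zero on the
fibres over `B`.

**Theorem.** The following conditions are equivalent:

(1) `X` is Brody hyperbolic: all holomorphic maps from the complex plane to `X` are constant;
(2) all closed subvarieties of `X` of dimension at least one are of general type;
(3) for all smooth projective curves `C`, points `c` of `C` and points `x` of `X` there are only
    finitely many morphisms `f : C → X` with `f c = x` (`PointedMaps`).

In (3) the curve may as well be quasi-projective, as `X` is projective. The point `x` is arbitrary: it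
may be a point of a singular fibre or of a curve on `X` which is special for the argument. The proof
does not use compactness of spaces of maps: infinitely many maps with `f c = x` would contain, by the
rigidity of the semistable reduction and the boundedness of the derivatives of the compositions of
`f` with `α` near `c` (a theorem for all holomorphic discs in `X`, in the absence of entire curves), two
maps with the same composition with `α`, and then, by the height inequality for families of curves and
by bend and break, a rational curve in `X`.
-/

set_option autoImplicit false
set_option linter.overlappingInstances false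

open FF Pool.Agent.W603.LV Pool.Agent.W603.PV Pool.Agent.W602.GT Pool.Agent.N154.GG
open Pool.Agent.W602.RG (PointedMaps)
open Pool.Agent.H918.SS (ProjVariety HasReduction)
open Pool.Agent.H918.PF (WForms)
open Pool.Agent.H918.AI

namespace Pool.Agent.Results.MP_dc0411_ag.FibredLangVojta

/-- **The conditions of Lang and Vojta for surfaces fibred over an elliptic curve.** See the
explanation at the beginning of the file. -/
theorem result (n : ℕ) (ι : Type) (F : ι → MvPolynomial (Fin (n + 1)) ℂ) (K : Type) [Field K]
    [Algebra ℂ K] (y : Fin (n + 1) → K) (Λ : PeriodPair)
    (α : (Fin (n + 1) → ℂ) → ℂ ⧸ Λ.lattice) (A : Fin 3 → MvPolynomial (Fin (n + 1)) ℂ)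
    (B : Set (ℂ ⧸ Λ.lattice)) (H : MvPolynomial (Fin (n + 1)) ℂ)
    (hX : ProjVariety F 2 y) (hK : GeneralType ℂ K 2)
    (hα : HolToTorus (Cone F) Λ α) (hA : WForms F Λ α A) (h0 : val y (A 0) ≠ 0)
    (hB : B.Finite) (hR : HasReduction F α B) (hH : IsForm H) (hy : val y H ≠ 0)
    (hHB : ∀ u ∈ Cone F, α u ∈ B → val u H = 0) :
    [∀ f, HolIn F f → ∀ z w, f z = f w,
      ∀ (K' : Type) [Field K'] [Algebra ℂ K'] (w : ℕ) (v : Fin (n + 1) → K'), 1 ≤ w →
        SubVar F K' w v → GeneralType ℂ K' w,
      ∀ (L : Type) [Field L] [Algebra ℂ L] [IsFF ℂ L] (c : Place ℂ L), ∀ x ∈ Cone F,
        (PointedMaps y c x).Finite].TFAE :=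
  tfae_pointed hX hK hα hA h0 hB hR hH hy hHB

end Pool.Agent.Results.MP_dc0411_ag.FibredLangVojta
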