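import Mathlib
import Pool.Agent.H917.M.Z1

/-!
MP_dc0411_ag, Q1: the Lang-Vojta equivalence of the notions of hyperbolicity, for quasi-projective
varieties `X` with a compactification such that some symmetric power of the logarithmic cotangent
bundle is generated by global sections, and for all closed subsets of `X`.

The boundary `D` of the projective variety `X̄` with the ideal `p` is given by boundary coordinates:
in the chart where the `j`-th coordinate is not zero, `D` is the union of the hyperplane sections
given by the coordinates in `B j` (`BdC p B`), and `X = X̄ \ D` is the set of the points `x` with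
`OffB B x`. Every pair (smooth projective variety, divisor with simple normal crossings) has such
an embedding in a projective space, in which each component of `D` is, in each chart, the divisor
of one of the coordinates: take line bundles `A` and `A(-D_i)`, all very ample, with generating
sections `a_j` (among them all `s_i t^(i)_c`, where `s_i` is the section of `O(D_i)` with the
divisor `D_i`) and `t^(i)_c`, and the coordinates `a_j * ∏_i t^(i)_(c_i)`.

A smooth curve is given by its function field `F` (`IsFF ℂ F`) and the finite set `T` of the places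
(the points of the smooth projective model) which do not belong to the curve; `canDeg ℂ F = 2 g - 2`;
`pht ℂ x` is the degree of the line bundle `f^* O(1)` for the morphism `f` with the homogeneous
coordinates `x`.
-/

set_option autoImplicit false

namespace Pool.Agent.Results.MP_dc0411_ag.GenPowersLogPointed

open MvPolynomial Metric FF Pool.Agent.H917 Pool.Agent.H917.Lg Pool.Agent.H917.Mg
open Pool.Agent.W602.GT (LogGeneralType)

/-- Let `p` be the homogeneous ideal of a projective variety `X̄`, with the boundary `D` given by
the boundary coordinates `B`, such that the `m`-th symmetric power of the logarithmic cotangent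
sheaf of `(X̄, D)` is generated by global sections, for some `m ≥ 1`. Let `V̄` be a closed algebraic
subset of `X̄` (such as `X̄` itself), with the homogeneous ideal `q`, and `V = V̄ \ D`. The following
are equivalent: (1) `V` is Brody hyperbolic; (2) every subvariety of `V` is of log general type;
every holomorphic map from the punctured disc to `V` extends to a holomorphic map from the disc to
`V̄`. They imply (3): for every smooth curve `C`, every point `c` of `C` and every point `x` of `V`
there are only finitely many morphisms from `C` to `V` which map `c` to `x`; and the degrees of the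
morphisms from all smooth curves (of genus `g` without `s` points) to `V` are at most a constant
times `max (2 g - 2 + s) 0`.

If `V` is projective (`D` is empty) or affine (the boundary of `V` is a hypersurface section `Q = 0`
of `V̄`, for example if `D` is a hypersurface section of `X̄`), then (1), (2), (3), this linear bound, and the boundedness of the degrees of the morphisms from `C` to `V` for
every smooth curve `C` are equivalent. If `V` is affine, they are also equivalent to: every
morphism from the punctured line to `V` is constant. -/
theorem result {n : ℕ} (p : Ideal (MvPolynomial (Fin (n + 1)) ℂ))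
    (B : Fin (n + 1) → Finset (Fin (n + 1))) (hB : BdC p B) {m : ℕ} (hm : 1 ≤ m)
    (hg : BGenerated p B m) (q : Ideal (MvPolynomial (Fin (n + 1)) ℂ))
    (hq : ∀ H ∈ q, ∀ d, homogeneousComponent d H ∈ q) (hpq : p ≤ q) :
    List.TFAE [¬ ∃ f, EntCurve q f ∧ ∀ z, OffB B (f z),
      ∀ (K : Type) [Field K] [Algebra ℂ K] (w : ℕ) (y : Fin (n + 1) → K),
        SubVarB q B K w y → LogGeneralType ℂ K w (BdP B y),
      ∀ f, PuncCurve q f → (∀ z ∈ ball (0 : ℂ) 1 \ {0}, OffB B (f z)) → Extends f] ∧
    ((¬ ∃ f, EntCurve q f ∧ ∀ z, OffB B (f z)) → PointedFinB q B 1 ∧ LinBoundB q B 1) ∧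
    ((∀ j, B j = ∅) ∨ (∃ (Q : MvPolynomial (Fin (n + 1)) ℂ) (d : ℕ), 1 ≤ d ∧
        Q.IsHomogeneous d ∧ Bdry q Q B) →
      List.TFAE [¬ ∃ f, EntCurve q f ∧ ∀ z, OffB B (f z), PointedFinB q B 1, LinBoundB q B 1,
        BoundedB q B 1]) ∧
    (∀ (Q : MvPolynomial (Fin (n + 1)) ℂ) (d : ℕ), 1 ≤ d → Q.IsHomogeneous d → Bdry q Q B →
      ((¬ ∃ f, EntCurve q f ∧ ∀ z, OffB B (f z)) ↔ ¬ ∃ P, GmCurve q Q P)) := by
  have h0 := tfae_hypB hq (hB.res hpq) hm (hg.res hpq)
  have h1 : (¬ ∃ f, EntCurve q f ∧ ∀ z, OffB B (f z)) → LinBoundB q B 1 := fun h =>
    linBoundB_of_all hq (hB.res hpq) hm (hg.res hpq) ((h0.out 0 1).1 h)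
  have h2 : BoundedB q B 1 → PointedFinB q B 1 :=
    pointedFinB_of_bounded hq (hB.res hpq) hm (hg.res hpq) ⟨0, isHomogeneous_one _ _⟩
  refine ⟨h0, fun h => ⟨h2 (h1 h).bounded, h1 h⟩, fun hAP => ?_, fun Q d hd hQ hQB =>
    gm_hyp hq hd hQ hQB hm (hg.res hpq)⟩
  have h3 : BoundedB q B 1 ∨ PointedFinB q B 1 → ¬ ∃ f, EntCurve q f ∧ ∀ z, OffB B (f z) :=
    brody_of_either hq (hB.res hpq) hAP hm (hg.res hpq)
  tfae_have 1 → 3 := h1
  tfae_have 3 → 4 := LinBoundB.bounded
  tfae_have 4 → 2 := h2
  tfae_have 2 → 1 := fun h => h3 (Or.inr h)
  tfae_finish

end Pool.Agent.Results.MP_dc0411_ag.GenPowersLogPointed
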